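import Mathlib

/-!
# The generalised Saxl conjecture for Weyl groups fails for `so_7` (type `B_3`)

For the complex simple Lie algebra `so_{2n+1}` (type `B_n`, `n ≥ 2`) we use the standard
combinatorial dictionary (Collingwood-McGovern; Carter, Finite groups of Lie type, 11.4 and 13.3):

* the Weyl group is the group `W n` of signed permutations;
* nilpotent orbits are the partitions of `2n+1` in which even parts have even multiplicity, the
  closure order is the dominance order;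
* an orbit is solvable when all parts are odd and every part occurs at most twice
  (the reductive part of the centraliser is a product of groups `O_m`, one for every odd part of
  multiplicity `m`, and `Sp_m`, one for every even part of multiplicity `m`);
* the Lusztig-Spaltenstein dual is the `B`-collapse of the transposed partition, an orbit is
  special when it is in the image of the duality;
* the irreducible characters of `W n` are labelled by the bipartitions `(xi ; eta)` of `n`; two of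
  them are in the same family when their symbols have the same entries; the family of a special
  orbit is the one containing its Springer character.
-/

namespace Pool.Agent.Results.MP_932ab4_al.TypeB3

open Finset Equiv

/-! ### The Weyl group of type `B_n` -/

/-- Permutations act on sign vectors. -/
def act (n : ℕ) : Perm (Fin n) →* MulAut (Fin n → ℤˣ) where
  toFun π :=
    { toFun := fun s i => s (π.symm i)
      invFun := fun s i => s (π i)
      left_inv := fun s => by funext i; simp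
      right_inv := fun s => by funext i; simp
      map_mul' := fun s t => rfl }
  map_one' := rfl
  map_mul' _ _ := rfl

/-- The group of signed permutations of `n` letters; the element `(s, π)` maps the basis vector
`e_i` to `s (π i) • e_(π i)`. It is the Weyl group of type `B_n`. -/
abbrev W (n : ℕ) := (Fin n → ℤˣ) ⋊[act n] Perm (Fin n)

instance (n : ℕ) : Fintype (W n) := Fintype.ofEquiv _ SemidirectProduct.equivProd.symm

/-! ### Irreducible characters of `W n` labelled by bipartitions -/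

/-- The character of `W n` induced from the subgroup
`∏ W(a i) × ∏ W(b j)` and from its linear character which is trivial on the factors `W(a i)` and
is the product of all signs on the factors `W(b j)`. At `g = (s, π)` it is the sum, over all
colourings `c` of the `n` letters which are constant on the cycles of `π` and use the colour
`inl i` exactly `a i` times and the colour `inr j` exactly `b j` times, of the product of the
signs of the letters with a colour `inr j`. It is zero when some `a i` or `b j` is negative. -/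
def hChar (n : ℕ) (a b : Fin n → ℤ) (g : W n) : ℤ :=
  ∑ c : Fin n → Fin n ⊕ Fin n,
    if (∀ x, c (g.right x) = c x) ∧
        (∀ i, ((univ.filter fun x => c x = Sum.inl i).card : ℤ) = a i) ∧
        (∀ j, ((univ.filter fun x => c x = Sum.inr j).card : ℤ) = b j) then
      ∏ x, (if (c x).isRight then ((g.left x : ℤˣ) : ℤ) else 1)
    else 0

/-- The irreducible character of `W n` labelled by the bipartition `(xi ; eta)` of `n`, that is
the character induced from `chi^xi ⊠ (sign product) chi^eta` on `W a × W b`, `a = |xi|`,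
`b = |eta|`, by the determinantal (Jacobi-Trudi) formula. Thus `((n) ; ∅)` is the trivial
character and `(∅ ; (1^n))` is the determinant of the reflection representation. -/
def chi (n : ℕ) (xi eta : Fin n → ℕ) (g : W n) : ℤ :=
  ∑ w : Perm (Fin n), ∑ w' : Perm (Fin n),
    (Perm.sign w : ℤ) * (Perm.sign w' : ℤ) *
      hChar n (fun i => (xi i : ℤ) - (i : ℕ) + (w i : ℕ))
        (fun j => (eta j : ℤ) - (j : ℕ) + (w' j : ℕ)) g

/-! ### Partitions and nilpotent orbits of `so_{2n+1}` -/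

/-- `l` is a partition of `N`, written as a weakly decreasing sequence padded with zeros. -/
def IsPart (N : ℕ) (l : Fin N → ℕ) : Prop := Antitone l ∧ ∑ i, l i = N

/-- The multiplicity of `j` in `l`. -/
def mult {N : ℕ} (l : Fin N → ℕ) (j : ℕ) : ℕ := (univ.filter fun i => l i = j).card

/-- Partitions of `2n+1` in which every even part (necessarily positive) has even multiplicity:
the nilpotent orbits of `so_{2n+1}`. -/
def IsOrbit (n : ℕ) (l : Fin (2 * n + 1) → ℕ) : Prop :=
  IsPart (2 * n + 1) l ∧ ∀ j, 0 < j → Even j → Even (mult l j)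

/-- Dominance order: `l ≤ m`. On nilpotent orbits this is the closure order. -/
def Dom {N : ℕ} (l m : Fin N → ℕ) : Prop :=
  ∀ k : ℕ, ∑ i : Fin N, (if (i : ℕ) < k then l i else 0) ≤
    ∑ i : Fin N, (if (i : ℕ) < k then m i else 0)

/-- The transposed partition. -/
def transp {N : ℕ} (l : Fin N → ℕ) : Fin N → ℕ := fun j => (univ.filter fun i => (j : ℕ) < l i).card

/-- Solvable orbits: all parts are odd with multiplicity at most two. -/
def IsSolvableOrbit (n : ℕ) (l : Fin (2 * n + 1) → ℕ) : Prop :=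
  IsOrbit n l ∧ ∀ j, 0 < j → mult l j ≠ 0 → Odd j ∧ mult l j ≤ 2

/-- `l` is the minimal solvable orbit (the least one in the closure order). -/
def IsMinSolvable (n : ℕ) (l : Fin (2 * n + 1) → ℕ) : Prop :=
  IsSolvableOrbit n l ∧ ∀ m, IsSolvableOrbit n m → Dom l m

/-- `m` is the Lusztig-Spaltenstein dual `d(l)`: the `B`-collapse of the transpose of `l`, that is
the largest orbit which is dominated by the transpose. -/
def IsDual (n : ℕ) (l m : Fin (2 * n + 1) → ℕ) : Prop :=
  IsOrbit n m ∧ Dom m (transp l) ∧ ∀ k, IsOrbit n k → Dom k (transp l) → Dom k m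

/-- Special orbits: those in the image of the duality. -/
def IsSpecial (n : ℕ) (m : Fin (2 * n + 1) → ℕ) : Prop :=
  IsOrbit n m ∧ ∃ l, IsOrbit n l ∧ IsDual n l m

/-! ### Families -/

/-- The entries of the symbol of the Springer character of the orbit `l` of `so_{2n+1}`: write
`l` in weakly increasing order `l_1 ≤ ... ≤ l_{2n+1}`, put `l*_i = l_i + i - 1`; the numbers `l*_i`
are `2 xi*_k + 1` (`k = 1..n+1`) and `2 eta*_k` (`k = 1..n`), the Springer character is
`(xi ; eta)` with `xi_k = xi*_k - (k-1)`, `eta_k = eta*_k - (k-1)`, and its symbol has the rows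
`xi*` and `eta*`. The entries are the halves (rounded down) of the numbers `l*_i`. -/
def orbitEntries (n : ℕ) (l : Fin (2 * n + 1) → ℕ) : Multiset ℕ :=
  (univ : Finset (Fin (2 * n + 1))).val.map fun i => (l (Fin.rev i) + (i : ℕ)) / 2

/-- The entries of the symbol of the bipartition `(xi ; eta)` of `n`: the first row has the `n+1`
entries `xi_k + (k-1)`, the second one the `n` entries `eta_k + (k-1)`, where the parts are written
in weakly increasing order (the first row starts with one more part zero). -/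
def symbolEntries (n : ℕ) (xi eta : Fin n → ℕ) : Multiset ℕ :=
  (0 ::ₘ ((univ : Finset (Fin n)).val.map fun i => xi (Fin.rev i) + ((i : ℕ) + 1))) +
    ((univ : Finset (Fin n)).val.map fun i => eta (Fin.rev i) + (i : ℕ))

/-- Bipartitions of `n`, written as pairs of weakly decreasing sequences padded with zeros. -/
def IsBipart (n : ℕ) (p : (Fin n → Fin (n + 1)) × (Fin n → Fin (n + 1))) : Prop :=
  Antitone p.1 ∧ Antitone p.2 ∧ ∑ i, ((p.1 i : ℕ) + (p.2 i : ℕ)) = n

/-- The bipartition `p` labels a character in a family `F` with `O ≥ O_F ≥ d(O)`. -/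
def InSigma (n : ℕ) (O : Fin (2 * n + 1) → ℕ)
    (p : (Fin n → Fin (n + 1)) × (Fin n → Fin (n + 1))) : Prop :=
  IsBipart n p ∧ ∃ dO m, IsDual n O dO ∧ IsSpecial n m ∧ Dom m O ∧ Dom dO m ∧
    symbolEntries n (fun i => (p.1 i : ℕ)) (fun i => (p.2 i : ℕ)) = orbitEntries n m

open scoped Classical in
/-- The character `Σ = ⊕_{O ≥ O_F ≥ d(O)} ⊕_{σ ∈ F} σ` of `W n`. -/
noncomputable def Sigma (n : ℕ) (O : Fin (2 * n + 1) → ℕ) (g : W n) : ℤ :=
  ∑ p ∈ (univ : Finset ((Fin n → Fin (n + 1)) × (Fin n → Fin (n + 1)))).filter (InSigma n O),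
    chi n (fun i => (p.1 i : ℕ)) (fun i => (p.2 i : ℕ)) g

/-- The multiplicity of the character of `ρ` in a class function `f` of `W n`. -/
noncomputable def multiplicity {n : ℕ} {V : Type} [AddCommGroup V] [Module ℂ V]
    (f : W n → ℂ) (ρ : Representation ℂ (W n) V) : ℂ :=
  (Nat.card (W n) : ℂ)⁻¹ * ∑ g : W n, f g * ρ.character g⁻¹

/-! ### The case `n = 3` -/

/-- The minimal solvable orbit `(3,3,1)` of `so_7`. -/
def O3 : Fin (2 * 3 + 1) → ℕ := ![3, 3, 1, 0, 0, 0, 0]

/-- Its dual orbit `(3,2,2)`. -/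
def D3 : Fin (2 * 3 + 1) → ℕ := ![3, 2, 2, 0, 0, 0, 0]

lemma mult_eq_zero_of_lt {N : ℕ} (l : Fin N → ℕ) (j : ℕ) (h : ∀ i, l i < j) : mult l j = 0 := by
  unfold mult
  rw [card_eq_zero, filter_eq_empty_iff]
  intro i _ hi
  have := h i
  omega

lemma isOrbit_O3 : IsOrbit 3 O3 := by
  refine ⟨⟨by decide, by decide⟩, ?_⟩
  intro j hj he
  by_cases h : j < 4
  · interval_cases j
    · exact absurd he (by decide)
    · decide
    · exact absurd he (by decide)
  · rw [mult_eq_zero_of_lt O3 j]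
    · exact ⟨0, rfl⟩
    · intro i
      have : O3 i < 4 := by revert i; decide
      omega

lemma isOrbit_D3 : IsOrbit 3 D3 := by
  refine ⟨⟨by decide, by decide⟩, ?_⟩
  intro j hj he
  by_cases h : j < 4
  · interval_cases j
    · exact absurd he (by decide)
    · decide
    · exact absurd he (by decide)
  · rw [mult_eq_zero_of_lt D3 j]
    · exact ⟨0, rfl⟩
    · intro i
      have : D3 i < 4 := by revert i; decide
      omega

lemma isSolvable_O3 : IsSolvableOrbit 3 O3 := by
  refine ⟨isOrbit_O3, ?_⟩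
  intro j hj hm
  by_cases h : j < 4
  · interval_cases j
    · decide
    · exact absurd hm (by decide)
    · decide
  · exfalso
    apply hm
    apply mult_eq_zero_of_lt
    intro i
    have : O3 i < 4 := by revert i; decide
    omega

lemma transp_O3 : transp O3 = D3 := by decide

lemma transp_D3 : transp D3 = O3 := by decide

lemma dom_refl {N : ℕ} (l : Fin N → ℕ) : Dom l l := fun _ => le_refl _

lemma dom_antisymm {N : ℕ} {l m : Fin N → ℕ} (h1 : Dom l m) (h2 : Dom m l) : l = m := by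
  have key : ∀ k : ℕ, ∑ i : Fin N, (if (i : ℕ) < k then l i else 0) =
      ∑ i : Fin N, (if (i : ℕ) < k then m i else 0) := fun k => le_antisymm (h1 k) (h2 k)
  have step : ∀ (f : Fin N → ℕ) (j : Fin N),
      ∑ i : Fin N, (if (i : ℕ) < (j : ℕ) + 1 then f i else 0) =
        ∑ i : Fin N, (if (i : ℕ) < (j : ℕ) then f i else 0) + f j := by
    intro f j
    have : f j = ∑ i : Fin N, (if i = j then f i else 0) := by simp
    conv_rhs => rw [this]
    rw [← sum_add_distrib]
    refine sum_congr rfl fun i _ => ?_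
    by_cases hij : i = j
    · subst hij
      simp
    · have : (i : ℕ) ≠ (j : ℕ) := fun h => hij (Fin.ext h)
      by_cases hlt : (i : ℕ) < (j : ℕ)
      · rw [if_pos (by omega), if_pos hlt, if_neg hij]; omega
      · rw [if_neg (by omega), if_neg hlt, if_neg hij]
  funext j
  have a := key j
  have b := key ((j : ℕ) + 1)
  rw [step l j, step m j] at b
  omega

lemma isDual_O3 : IsDual 3 O3 D3 := by
  refine ⟨isOrbit_D3, ?_, ?_⟩
  · rw [transp_O3]; exact dom_refl _
  · intro k _ hk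
    rwa [transp_O3] at hk

lemma isDual_D3 : IsDual 3 D3 O3 := by
  refine ⟨isOrbit_O3, ?_, ?_⟩
  · rw [transp_D3]; exact dom_refl _
  · intro k _ hk
    rwa [transp_D3] at hk

lemma isDual_unique {n : ℕ} {l m m' : Fin (2 * n + 1) → ℕ} (h : IsDual n l m)
    (h' : IsDual n l m') : m = m' :=
  dom_antisymm (h'.2.2 m h.1 h.2.1) (h.2.2 m' h'.1 h'.2.1)

lemma isSpecial_O3 : IsSpecial 3 O3 := ⟨isOrbit_O3, D3, isOrbit_D3, isDual_D3⟩

lemma isSpecial_D3 : IsSpecial 3 D3 := ⟨isOrbit_D3, O3, isOrbit_O3, isDual_O3⟩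

lemma sum7 (f : Fin (2 * 3 + 1) → ℕ) :
    ∑ i, f i = f 0 + f 1 + f 2 + f 3 + f 4 + f 5 + f 6 := by
  exact Fin.sum_univ_seven f

lemma dom_iff7 (l m : Fin (2 * 3 + 1) → ℕ) :
    Dom l m ↔ l 0 ≤ m 0 ∧ l 0 + l 1 ≤ m 0 + m 1 ∧ l 0 + l 1 + l 2 ≤ m 0 + m 1 + m 2 ∧
      l 0 + l 1 + l 2 + l 3 ≤ m 0 + m 1 + m 2 + m 3 ∧
      l 0 + l 1 + l 2 + l 3 + l 4 ≤ m 0 + m 1 + m 2 + m 3 + m 4 ∧
      l 0 + l 1 + l 2 + l 3 + l 4 + l 5 ≤ m 0 + m 1 + m 2 + m 3 + m 4 + m 5 ∧
      l 0 + l 1 + l 2 + l 3 + l 4 + l 5 + l 6 ≤ m 0 + m 1 + m 2 + m 3 + m 4 + m 5 + m 6 := by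
  have v : ∀ k : ℕ, ∀ f : Fin (2 * 3 + 1) → ℕ,
      ∑ i : Fin (2 * 3 + 1), (if (i : ℕ) < k then f i else 0) =
      (if 0 < k then f 0 else 0) + (if 1 < k then f 1 else 0) + (if 2 < k then f 2 else 0) +
      (if 3 < k then f 3 else 0) + (if 4 < k then f 4 else 0) + (if 5 < k then f 5 else 0) +
      (if 6 < k then f 6 else 0) := fun k f => sum7 _
  constructor
  · intro h
    have h1 := h 1
    have h2 := h 2
    have h3 := h 3
    have h4 := h 4
    have h5 := h 5
    have h6 := h 6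
    have h7 := h 7
    rw [v, v] at h1 h2 h3 h4 h5 h6 h7
    norm_num at h1 h2 h3 h4 h5 h6 h7
    refine ⟨h1, h2, h3, h4, h5, h6, h7⟩
  · rintro ⟨h1, h2, h3, h4, h5, h6, h7⟩ k
    rw [v, v]
    rcases k with _ | _ | _ | _ | _ | _ | _ | k
    · norm_num
    · norm_num; omega
    · norm_num; omega
    · norm_num; omega
    · norm_num; omega
    · norm_num; omega
    · norm_num; omega
    · have e0 : 0 < k + 1 + 1 + 1 + 1 + 1 + 1 + 1 := by omega
      have e1 : 1 < k + 1 + 1 + 1 + 1 + 1 + 1 + 1 := by omega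
      have e2 : 2 < k + 1 + 1 + 1 + 1 + 1 + 1 + 1 := by omega
      have e3 : 3 < k + 1 + 1 + 1 + 1 + 1 + 1 + 1 := by omega
      have e4 : 4 < k + 1 + 1 + 1 + 1 + 1 + 1 + 1 := by omega
      have e5 : 5 < k + 1 + 1 + 1 + 1 + 1 + 1 + 1 := by omega
      have e6 : 6 < k + 1 + 1 + 1 + 1 + 1 + 1 + 1 := by omega
      simp only [if_pos e0, if_pos e1, if_pos e2, if_pos e3, if_pos e4, if_pos e5, if_pos e6]
      exact h7

lemma three_le_mult {N : ℕ} (l : Fin N → ℕ) (a b c : Fin N) (hab : a ≠ b) (hac : a ≠ c)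
    (hbc : b ≠ c) (h1 : l a = l b) (h2 : l b = l c) : 3 ≤ mult l (l a) := by
  unfold mult
  have : ({a, b, c} : Finset (Fin N)) ⊆ univ.filter fun i => l i = l a := by
    intro x hx
    simp only [mem_insert, mem_singleton] at hx
    rw [mem_filter]
    refine ⟨mem_univ _, ?_⟩
    rcases hx with rfl | rfl | rfl
    · rfl
    · exact h1.symm
    · rw [h1, h2]
  have hc : ({a, b, c} : Finset (Fin N)).card = 3 := by
    rw [card_insert_of_notMem (by simp [hab, hac]), card_insert_of_notMem (by simp [hbc]),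
      card_singleton]
  rw [← hc]
  exact card_le_card this

lemma one_le_mult {N : ℕ} (l : Fin N → ℕ) (a : Fin N) : mult l (l a) ≠ 0 := by
  unfold mult
  rw [Ne, card_eq_zero, filter_eq_empty_iff]
  intro h
  exact h (mem_univ a) rfl

lemma isMinSolvable_O3 : IsMinSolvable 3 O3 := by
  refine ⟨isSolvable_O3, ?_⟩
  rintro m ⟨⟨⟨hm, hs⟩, _⟩, hsol⟩
  rw [sum7] at hs
  have a01 : m 1 ≤ m 0 := hm (by decide)
  have a12 : m 2 ≤ m 1 := hm (by decide)
  have a23 : m 3 ≤ m 2 := hm (by decide)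
  have a34 : m 4 ≤ m 3 := hm (by decide)
  have a45 : m 5 ≤ m 4 := hm (by decide)
  have a56 : m 6 ≤ m 5 := hm (by decide)
  have odd : ∀ i, m i = 0 ∨ m i % 2 = 1 := by
    intro i
    rcases Nat.eq_zero_or_pos (m i) with h | h
    · exact Or.inl h
    · exact Or.inr (Nat.odd_iff.mp (hsol (m i) h (one_le_mult m i)).1)
  have three : ∀ a b c : Fin (2 * 3 + 1), a ≠ b → a ≠ c → b ≠ c → m a = m b → m b = m c →
      m a = 0 := by
    intro a b c h1 h2 h3 h4 h5
    rcases Nat.eq_zero_or_pos (m a) with h | h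
    · exact h
    · have := (hsol (m a) h (one_le_mult m a)).2
      have := three_le_mult m a b c h1 h2 h3 h4 h5
      omega
  have t0 := three 0 1 2 (by decide) (by decide) (by decide)
  have t1 := three 1 2 3 (by decide) (by decide) (by decide)
  have t2 := three 2 3 4 (by decide) (by decide) (by decide)
  have o0 := odd 0
  have o1 := odd 1
  have o2 := odd 2
  have o3 := odd 3
  rw [dom_iff7]
  have e0 : O3 0 = 3 := rfl
  have e1 : O3 1 = 3 := rfl
  have e2 : O3 2 = 1 := rfl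
  have e3 : O3 3 = 0 := rfl
  have e4 : O3 4 = 0 := rfl
  have e5 : O3 5 = 0 := rfl
  have e6 : O3 6 = 0 := rfl
  rw [e0, e1, e2, e3, e4, e5, e6]
  have key0 : 3 ≤ m 0 := by
    by_contra h
    have : m 0 ≤ 2 := by omega
    have hm0 : m 0 = 0 ∨ m 0 = 1 := by omega
    rcases hm0 with h0 | h0
    · omega
    · have : m 2 = 0 := by
        by_contra h2
        have : m 0 = m 1 := by omega
        have : m 1 = m 2 := by omega
        have := t0 ‹_› ‹_›
        omega
      omega
  have key1 : 6 ≤ m 0 + m 1 := by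
    by_contra h
    have hm0 : m 0 = 3 ∨ m 0 = 5 := by omega
    rcases hm0 with h0 | h0
    · have hm1 : m 1 = 0 ∨ m 1 = 1 := by omega
      rcases hm1 with h1 | h1
      · omega
      · have : m 3 = 0 := by
          by_contra h3
          have : m 1 = m 2 := by omega
          have : m 2 = m 3 := by omega
          have := t1 ‹_› ‹_›
          omega
        omega
    · omega
  have key2 : 7 ≤ m 0 + m 1 + m 2 := by
    by_contra h
    have h6 : m 0 + m 1 + m 2 = 6 := by omega
    have : m 3 = 1 := by omega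
    have : m 2 = 0 := by omega
    omega
  omega


lemma between {m : Fin (2 * 3 + 1) → ℕ} (hm : IsOrbit 3 m) (h1 : Dom m O3) (h2 : Dom D3 m) :
    m = O3 ∨ m = D3 := by
  rw [dom_iff7] at h1 h2
  have e0 : O3 0 = 3 := rfl
  have e1 : O3 1 = 3 := rfl
  have e2 : O3 2 = 1 := rfl
  have e3 : O3 3 = 0 := rfl
  have e4 : O3 4 = 0 := rfl
  have e5 : O3 5 = 0 := rfl
  have e6 : O3 6 = 0 := rfl
  have d0 : D3 0 = 3 := rfl
  have d1 : D3 1 = 2 := rfl
  have d2 : D3 2 = 2 := rfl
  have d3 : D3 3 = 0 := rfl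
  have d4 : D3 4 = 0 := rfl
  have d5 : D3 5 = 0 := rfl
  have d6 : D3 6 = 0 := rfl
  rw [e0, e1, e2, e3, e4, e5, e6] at h1
  rw [d0, d1, d2, d3, d4, d5, d6] at h2
  obtain ⟨⟨ha, hs⟩, _⟩ := hm
  rw [sum7] at hs
  have hcase : m 1 = 3 ∨ m 1 = 2 := by omega
  rcases hcase with h | h
  · left
    funext i
    fin_cases i
    · show m 0 = 3; omega
    · show m 1 = 3; omega
    · show m 2 = 1; omega
    · show m 3 = 0; omega
    · show m 4 = 0; omega
    · show m 5 = 0; omega
    · show m 6 = 0; omega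
  · right
    funext i
    fin_cases i
    · show m 0 = 3; omega
    · show m 1 = 2; omega
    · show m 2 = 2; omega
    · show m 3 = 0; omega
    · show m 4 = 0; omega
    · show m 5 = 0; omega
    · show m 6 = 0; omega

/-- The bipartition `((1) ; (2))`. -/
def p1 : (Fin 3 → Fin 4) × (Fin 3 → Fin 4) := (![1, 0, 0], ![2, 0, 0])

/-- The bipartition `((1,1) ; (1))`. -/
def p2 : (Fin 3 → Fin 4) × (Fin 3 → Fin 4) := (![1, 1, 0], ![1, 0, 0])

instance decBipart (p : (Fin 3 → Fin 4) × (Fin 3 → Fin 4)) : Decidable (IsBipart 3 p) := by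
  unfold IsBipart
  infer_instance

lemma fam_aux (T : Multiset ℕ) (q : (Fin 3 → Fin 4) × (Fin 3 → Fin 4))
    (h : ∀ a0 a1 : Fin 4, a1 ≤ a0 → ∀ a2 : Fin 4, a2 ≤ a1 → ∀ b0 b1 : Fin 4, b1 ≤ b0 →
      ∀ b2 : Fin 4, b2 ≤ b1 → (a0 : ℕ) + a1 + a2 + b0 + b1 + b2 = 3 →
      symbolEntries 3 (fun i => ((![a0, a1, a2] i : Fin 4) : ℕ))
        (fun i => ((![b0, b1, b2] i : Fin 4) : ℕ)) = T →
      (![a0, a1, a2], ![b0, b1, b2]) = q) (p : (Fin 3 → Fin 4) × (Fin 3 → Fin 4))
    (hp : IsBipart 3 p)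
    (he : symbolEntries 3 (fun i => (p.1 i : ℕ)) (fun i => (p.2 i : ℕ)) = T) : p = q := by
  obtain ⟨x, y⟩ := p
  have hx : x = ![x 0, x 1, x 2] := by
    funext i; fin_cases i <;> rfl
  have hy : y = ![y 0, y 1, y 2] := by
    funext i; fin_cases i <;> rfl
  obtain ⟨h1, h2, h3⟩ := hp
  have := h (x 0) (x 1) (h1 (by decide)) (x 2) (h1 (by decide)) (y 0) (y 1) (h2 (by decide)) (y 2)
    (h2 (by decide)) (by
      rw [Fin.sum_univ_three] at h3
      simp only at h3
      omega) (by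
      rw [← hx, ← hy]
      exact he)
  rw [← hx, ← hy] at this
  exact this

lemma fam_O3 (p : (Fin 3 → Fin 4) × (Fin 3 → Fin 4)) (hp : IsBipart 3 p)
    (he : symbolEntries 3 (fun i => (p.1 i : ℕ)) (fun i => (p.2 i : ℕ)) = orbitEntries 3 O3) :
      p = p1 := by
  refine fam_aux _ _ ?_ p hp he
  decide +kernel

lemma fam_D3 (p : (Fin 3 → Fin 4) × (Fin 3 → Fin 4)) (hp : IsBipart 3 p)
    (he : symbolEntries 3 (fun i => (p.1 i : ℕ)) (fun i => (p.2 i : ℕ)) = orbitEntries 3 D3) :
      p = p2 := by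
  refine fam_aux _ _ ?_ p hp he
  decide +kernel

lemma inSigma_iff (p : (Fin 3 → Fin 4) × (Fin 3 → Fin 4)) :
    InSigma 3 O3 p ↔ p = p1 ∨ p = p2 := by
  constructor
  · rintro ⟨hb, dO, m, hd, hsp, h1, h2, he⟩
    have hdO : dO = D3 := isDual_unique hd isDual_O3
    subst hdO
    rcases between hsp.1 h1 h2 with rfl | rfl
    · exact Or.inl (fam_O3 p hb he)
    · exact Or.inr (fam_D3 p hb he)
  · rintro (rfl | rfl)
    · refine ⟨by decide, D3, O3, isDual_O3, isSpecial_O3, dom_refl _, ?_, by decide⟩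
      rw [dom_iff7]; decide
    · refine ⟨by decide, D3, D3, isDual_O3, isSpecial_D3, ?_, dom_refl _, by decide⟩
      rw [dom_iff7]; decide

lemma sigma_eq (g : W 3) : Sigma 3 O3 g =
    chi 3 (fun i => (p1.1 i : ℕ)) (fun i => (p1.2 i : ℕ)) g +
      chi 3 (fun i => (p2.1 i : ℕ)) (fun i => (p2.2 i : ℕ)) g := by
  classical
  have hs : Sigma 3 O3 g = ∑ p ∈ ({p1, p2} : Finset ((Fin 3 → Fin 4) × (Fin 3 → Fin 4))),
      chi 3 (fun i => (p.1 i : ℕ)) (fun i => (p.2 i : ℕ)) g := by
    unfold Sigma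
    refine sum_congr ?_ fun _ _ => rfl
    ext p
    rw [mem_filter, mem_insert, mem_singleton, inSigma_iff]
    simp
  rw [hs, sum_pair (by decide)]

lemma hChar_neg {n : ℕ} {a b : Fin n → ℤ} (i : Fin n) (h : a i < 0) (g : W n) :
    hChar n a b g = 0 := by
  unfold hChar
  refine sum_eq_zero fun c _ => ?_
  rw [if_neg]
  rintro ⟨_, h2, _⟩
  have := h2 i
  omega

lemma hChar_neg' {n : ℕ} {a b : Fin n → ℤ} (i : Fin n) (h : b i < 0) (g : W n) :
    hChar n a b g = 0 := by
  unfold hChar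
  refine sum_eq_zero fun c _ => ?_
  rw [if_neg]
  rintro ⟨_, _, h2⟩
  have := h2 i
  omega

/-- Explicit form of the first character. -/
def e1 (g : W 3) : ℤ := hChar 3 ![1, 0, 0] ![2, 0, 0] g

/-- Explicit form of the second character. -/
def e2 (g : W 3) : ℤ := hChar 3 ![1, 1, 0] ![1, 0, 0] g - hChar 3 ![2, 0, 0] ![1, 0, 0] g

lemma chi_p1 (g : W 3) : chi 3 (fun i => (p1.1 i : ℕ)) (fun i => (p1.2 i : ℕ)) g = e1 g := by
  unfold chi
  have h1 : ∀ w : Perm (Fin 3), w ≠ 1 →
      ∃ i, (((fun i => (p1.1 i : ℕ)) i : ℕ) : ℤ) - (i : ℕ) + (w i : ℕ) < 0 := by decide +kernel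
  have h2 : ∀ w : Perm (Fin 3), w ≠ 1 →
      ∃ i, (((fun i => (p1.2 i : ℕ)) i : ℕ) : ℤ) - (i : ℕ) + (w i : ℕ) < 0 := by decide +kernel
  rw [sum_eq_single (1 : Perm (Fin 3)), sum_eq_single (1 : Perm (Fin 3))]
  · have ha : (fun i : Fin 3 => (((fun i => (p1.1 i : ℕ)) i : ℕ) : ℤ) - (i : ℕ) +
        (((1 : Perm (Fin 3)) i : Fin 3) : ℕ)) = ![1, 0, 0] := by decide +kernel
    have hb : (fun i : Fin 3 => (((fun i => (p1.2 i : ℕ)) i : ℕ) : ℤ) - (i : ℕ) +
        (((1 : Perm (Fin 3)) i : Fin 3) : ℕ)) = ![2, 0, 0] := by decide +kernel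
    rw [ha, hb]
    simp [e1]
  · intro w _ hw
    obtain ⟨i, hi⟩ := h2 w hw
    rw [hChar_neg' i hi, mul_zero]
  · simp
  · intro w _ hw
    obtain ⟨i, hi⟩ := h1 w hw
    refine sum_eq_zero fun w' _ => ?_
    rw [hChar_neg i hi, mul_zero]
  · simp

lemma chi_p2 (g : W 3) : chi 3 (fun i => (p2.1 i : ℕ)) (fun i => (p2.2 i : ℕ)) g = e2 g := by
  unfold chi
  have h1 : ∀ w : Perm (Fin 3), w ≠ 1 → w ≠ swap 0 1 →
      ∃ i, (((fun i => (p2.1 i : ℕ)) i : ℕ) : ℤ) - (i : ℕ) + (w i : ℕ) < 0 := by decide +kernel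
  have h2 : ∀ w : Perm (Fin 3), w ≠ 1 →
      ∃ i, (((fun i => (p2.2 i : ℕ)) i : ℕ) : ℤ) - (i : ℕ) + (w i : ℕ) < 0 := by decide +kernel
  have hin : ∀ w : Perm (Fin 3), ∑ w' : Perm (Fin 3),
      (Perm.sign w : ℤ) * (Perm.sign w' : ℤ) *
        hChar 3 (fun i => (((fun i => (p2.1 i : ℕ)) i : ℕ) : ℤ) - (i : ℕ) + (w i : ℕ))
          (fun j => (((fun i => (p2.2 i : ℕ)) j : ℕ) : ℤ) - (j : ℕ) + (w' j : ℕ)) g =
      (Perm.sign w : ℤ) *
        hChar 3 (fun i => (((fun i => (p2.1 i : ℕ)) i : ℕ) : ℤ) - (i : ℕ) + (w i : ℕ))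
          ![1, 0, 0] g := by
    intro w
    rw [sum_eq_single (1 : Perm (Fin 3))]
    · have hb : (fun i : Fin 3 => (((fun i => (p2.2 i : ℕ)) i : ℕ) : ℤ) - (i : ℕ) +
          (((1 : Perm (Fin 3)) i : Fin 3) : ℕ)) = ![1, 0, 0] := by decide +kernel
      rw [hb]
      simp
    · intro w' _ hw
      obtain ⟨i, hi⟩ := h2 w' hw
      rw [hChar_neg' i hi, mul_zero]
    · simp
  rw [sum_congr rfl fun w _ => hin w]
  rw [← sum_subset (subset_univ ({1, swap 0 1} : Finset (Perm (Fin 3))))]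
  · rw [sum_pair (by decide)]
    have ha : (fun i : Fin 3 => (((fun i => (p2.1 i : ℕ)) i : ℕ) : ℤ) - (i : ℕ) +
        (((1 : Perm (Fin 3)) i : Fin 3) : ℕ)) = ![1, 1, 0] := by decide +kernel
    have hb : (fun i : Fin 3 => (((fun i => (p2.1 i : ℕ)) i : ℕ) : ℤ) - (i : ℕ) +
        (((swap 0 1 : Perm (Fin 3)) i : Fin 3) : ℕ)) = ![2, 0, 0] := by decide +kernel
    rw [ha, hb, Perm.sign_swap (by decide)]
    simp [e2, sub_eq_add_neg]
  · intro w _ hw
    rw [mem_insert, mem_singleton, not_or] at hw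
    obtain ⟨i, hi⟩ := h1 w hw.1 hw.2
    rw [hChar_neg i hi, mul_zero]

/-- Sanity check (not used below): the two constituents of `Σ` for `so_7` have norm one, are
orthogonal and have degree three. -/
lemma sanity : ∑ g : (Fin 3 → ℤˣ) × Perm (Fin 3), e1 ⟨g.1, g.2⟩ ^ 2 = 48 ∧
    ∑ g : (Fin 3 → ℤˣ) × Perm (Fin 3), e2 ⟨g.1, g.2⟩ ^ 2 = 48 ∧
    ∑ g : (Fin 3 → ℤˣ) × Perm (Fin 3), e1 ⟨g.1, g.2⟩ * e2 ⟨g.1, g.2⟩ = 0 ∧
    e1 1 = 3 ∧ e2 1 = 3 := by
  decide +kernel

/-- The linear character `(s, π) ↦ ∏ s_i` of `W 3`, labelled by `(∅ ; (3))`. -/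
def psi : W 3 →* ℤˣ where
  toFun g := ∏ i, g.left i
  map_one' := by simp
  map_mul' g h := by
    rw [SemidirectProduct.mul_left]
    simp only [Pi.mul_apply, prod_mul_distrib]
    congr 1
    show ∏ i, h.left (g.right.symm i) = _
    exact Equiv.prod_comp g.right.symm fun i => h.left i

lemma key : ∑ g : (Fin 3 → ℤˣ) × Perm (Fin 3),
    (e1 ⟨g.1, g.2⟩ + e2 ⟨g.1, g.2⟩) ^ 2 * ((psi ⟨g.1, g.2⟩ : ℤˣ) : ℤ) = 0 := by
  decide +kernel

/-- The one-dimensional representation of `W 3` with character `psi`. -/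
def rhoPsi : Representation ℂ (W 3) ℂ where
  toFun g := (((psi g : ℤˣ) : ℤ) : ℂ) • LinearMap.id
  map_one' := by simp; rfl
  map_mul' g h := by
    ext
    simp [map_mul, mul_comm]

lemma rhoPsi_irreducible : rhoPsi.IsIrreducible := by
  have hs : ∀ S : Submodule ℂ ℂ, S = ⊥ ∨ S = ⊤ := fun S => eq_bot_or_eq_top (α := Ideal ℂ) S
  refine { exists_pair_ne := ⟨⊥, ⊤, ?_⟩, eq_bot_or_eq_top := ?_ }
  · intro h
    have h1 : (1 : ℂ) ∈ (⊤ : Subrepresentation rhoPsi).toSubmodule := Submodule.mem_top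
    rw [← h] at h1
    have h2 : (1 : ℂ) = 0 := h1
    exact one_ne_zero h2
  · intro S
    rcases hs S.toSubmodule with h | h
    · left
      exact Subrepresentation.toSubmodule_injective h
    · right
      exact Subrepresentation.toSubmodule_injective h

lemma rhoPsi_character (g : W 3) : rhoPsi.character g = (((psi g : ℤˣ) : ℤ) : ℂ) := by
  unfold Representation.character
  show LinearMap.trace ℂ ℂ ((((psi g : ℤˣ) : ℤ) : ℂ) • LinearMap.id) = _
  rw [map_smul, LinearMap.trace_id]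
  simp

lemma mult_zero :
    multiplicity (fun g => (Sigma 3 O3 g : ℂ) * (Sigma 3 O3 g : ℂ)) rhoPsi = 0 := by
  unfold multiplicity
  have h : ∑ g : W 3, ((Sigma 3 O3 g : ℂ) * (Sigma 3 O3 g : ℂ)) * rhoPsi.character g⁻¹ =
      ((∑ g : W 3, (e1 g + e2 g) ^ 2 * ((psi g : ℤˣ) : ℤ) : ℤ) : ℂ) := by
    rw [Int.cast_sum]
    refine sum_congr rfl fun g _ => ?_
    rw [rhoPsi_character, sigma_eq, chi_p1, chi_p2, map_inv, Int.units_inv_eq_self]
    push_cast
    ring
  have h2 : ∑ g : W 3, (e1 g + e2 g) ^ 2 * ((psi g : ℤˣ) : ℤ) =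
      ∑ g : (Fin 3 → ℤˣ) × Perm (Fin 3),
        (e1 ⟨g.1, g.2⟩ + e2 ⟨g.1, g.2⟩) ^ 2 * ((psi ⟨g.1, g.2⟩ : ℤˣ) : ℤ) :=
    Fintype.sum_equiv SemidirectProduct.equivProd _ _ fun g => rfl
  rw [h, h2, key]
  simp

/-- The generalised Saxl conjecture for Weyl groups fails for `so_7` (type `B_3`): the orbit
`(3,3,1)` is the minimal solvable orbit, and the linear character `(s, π) ↦ ∏ s_i` of the Weyl
group has multiplicity zero in `Σ ⊗ Σ`. -/
theorem result : IsMinSolvable 3 (![3, 3, 1, 0, 0, 0, 0] : Fin 7 → ℕ) ∧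
    ∃ ρ : Representation ℂ (W 3) ℂ, ρ.IsIrreducible ∧
      (∀ g : W 3, ρ.character g = ∏ i, (((g.left i : ℤˣ) : ℤ) : ℂ)) ∧
      multiplicity (fun g => (Sigma 3 (![3, 3, 1, 0, 0, 0, 0] : Fin 7 → ℕ) g : ℂ) *
        (Sigma 3 (![3, 3, 1, 0, 0, 0, 0] : Fin 7 → ℕ) g : ℂ)) ρ = 0 := by
  refine ⟨isMinSolvable_O3, rhoPsi, rhoPsi_irreducible, ?_, mult_zero⟩
  intro g
  rw [rhoPsi_character]
  show (((∏ i, g.left i : ℤˣ) : ℤ) : ℂ) = _
  rw [Units.coe_prod, Int.cast_prod]

end Pool.Agent.Results.MP_932ab4_al.TypeB3
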